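import Mathlib

set_option autoImplicit false

/-!
# The halving lemma (quantitative Steinitz / Helly, symmetric case)

Rademacher averages over finite sign vectors, contraction for the absolute value, and the
selection of one vector out of every pair.
-/

namespace Pool.Agent.Helper15.QH

open Finset

/-- The sign of a Boolean. -/
def sg (b : Bool) : ℝ := if b then 1 else -1

@[simp] theorem sg_true : sg true = 1 := rfl
@[simp] theorem sg_false : sg false = -1 := rfl

theorem sg_not (b : Bool) : sg (!b) = -sg b := by cases b <;> simp [sg]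

/-- Sums over Boolean vectors of length `N + 1`. -/
theorem sum_cons {N : ℕ} (f : (Fin (N + 1) → Bool) → ℝ) :
    ∑ ε, f ε = ∑ ε : Fin N → Bool, (f (Fin.cons true ε) + f (Fin.cons false ε)) := by
  rw [← (Fin.consEquiv (fun _ => Bool)).sum_comp f, Fintype.sum_prod_type, Fintype.sum_bool,
    ← Finset.sum_add_distrib]
  rfl

/-- Second moment. -/
theorem sum_sq (N : ℕ) : ∀ (a : ℝ) (x : Fin N → ℝ),
    ∑ ε : Fin N → Bool, (a + ∑ l, sg (ε l) * x l) ^ 2 = 2 ^ N * (a ^ 2 + ∑ l, x l ^ 2) := by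
  induction N with
  | zero => intro a x; simp
  | succ N ih =>
    intro a x
    rw [sum_cons, Finset.sum_add_distrib]
    have h1 : ∀ ε : Fin N → Bool, (a + ∑ l, sg ((Fin.cons true ε : Fin (N + 1) → Bool) l) * x l)
        = (a + x 0) + ∑ l : Fin N, sg (ε l) * x l.succ := by
      intro ε; rw [Fin.sum_univ_succ]; simp; ring
    have h2 : ∀ ε : Fin N → Bool, (a + ∑ l, sg ((Fin.cons false ε : Fin (N + 1) → Bool) l) * x l)
        = (a - x 0) + ∑ l : Fin N, sg (ε l) * x l.succ := by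
      intro ε; rw [Fin.sum_univ_succ]; simp; ring
    simp_rw [h1, h2]
    rw [ih (a + x 0) (fun l => x l.succ), ih (a - x 0) (fun l => x l.succ), Fin.sum_univ_succ]
    ring

/-- Exponential moment. -/
theorem sum_exp (N : ℕ) : ∀ (a : ℝ) (x : Fin N → ℝ),
    ∑ ε : Fin N → Bool, Real.exp (a + ∑ l, sg (ε l) * x l) ≤
      2 ^ N * Real.exp (a + (∑ l, x l ^ 2) / 2) := by
  induction N with
  | zero => intro a x; simp
  | succ N ih =>
    intro a x
    rw [sum_cons, Finset.sum_add_distrib]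
    have h1 : ∀ ε : Fin N → Bool, (a + ∑ l, sg ((Fin.cons true ε : Fin (N + 1) → Bool) l) * x l)
        = (a + x 0) + ∑ l : Fin N, sg (ε l) * x l.succ := by
      intro ε; rw [Fin.sum_univ_succ]; simp; ring
    have h2 : ∀ ε : Fin N → Bool, (a + ∑ l, sg ((Fin.cons false ε : Fin (N + 1) → Bool) l) * x l)
        = (a - x 0) + ∑ l : Fin N, sg (ε l) * x l.succ := by
      intro ε; rw [Fin.sum_univ_succ]; simp; ring
    simp_rw [h1, h2]
    have i1 := ih (a + x 0) (fun l => x l.succ)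
    have i2 := ih (a - x 0) (fun l => x l.succ)
    rw [Fin.sum_univ_succ]
    set T := ∑ l : Fin N, x l.succ ^ 2 with hT
    have hc := Real.cosh_le_exp_half_sq (x 0)
    have e1 : Real.exp (a + x 0 + T / 2) + Real.exp (a - x 0 + T / 2) =
        2 * (Real.exp (a + T / 2) * Real.cosh (x 0)) := by
      rw [Real.cosh_eq, show a + x 0 + T / 2 = (a + T / 2) + x 0 by ring,
        show a - x 0 + T / 2 = (a + T / 2) + (-x 0) by ring,
        Real.exp_add (a + T / 2) (x 0), Real.exp_add (a + T / 2) (-x 0)]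
      ring
    have e2 : Real.exp (a + (x 0 ^ 2 + T) / 2) =
        Real.exp (a + T / 2) * Real.exp (x 0 ^ 2 / 2) := by
      rw [← Real.exp_add]; ring_nf
    calc _ ≤ 2 ^ N * Real.exp (a + x 0 + T / 2) + 2 ^ N * Real.exp (a - x 0 + T / 2) :=
          add_le_add i1 i2
      _ = 2 ^ (N + 1) * (Real.exp (a + T / 2) * Real.cosh (x 0)) := by
          rw [← mul_add, e1]; ring
      _ ≤ 2 ^ (N + 1) * (Real.exp (a + T / 2) * Real.exp (x 0 ^ 2 / 2)) := by
          gcongr
      _ = _ := by rw [e2]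

/-- Contraction for the absolute value, in the form of a selection. -/
theorem contraction {α : Type*} (S : Set α) (N : ℕ) : ∀ (h : α → ℝ) (u : Fin N → α → ℝ)
    (y : (Fin N → Bool) → α), (∀ ε, y ε ∈ S) → ∃ z : (Fin N → Bool) → α, (∀ ε, z ε ∈ S) ∧
      ∑ ε, (h (y ε) + ∑ l, sg (ε l) * |u l (y ε)|) ≤
        ∑ ε, (h (z ε) + ∑ l, sg (ε l) * u l (z ε)) := by
  induction N with
  | zero => intro h u y hy; exact ⟨y, hy, by simp⟩
  | succ N ih =>
    intro h u y hy
    obtain ⟨zt, hzt, it⟩ := ih (fun v => h v + |u 0 v|) (fun l => u l.succ)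
      (fun ε => y (Fin.cons true ε)) (fun ε => hy _)
    obtain ⟨zf, hzf, jf⟩ := ih (fun v => h v - |u 0 v|) (fun l => u l.succ)
      (fun ε => y (Fin.cons false ε)) (fun ε => hy _)
    classical
    -- the swap
    let sw : (Fin N → Bool) → Prop := fun ε => u 0 (zt ε) ≥ u 0 (zf ε)
    let z : (Fin (N + 1) → Bool) → α := fun ε =>
      if ε 0 then (if sw (Fin.tail ε) then zt (Fin.tail ε) else zf (Fin.tail ε))
      else (if sw (Fin.tail ε) then zf (Fin.tail ε) else zt (Fin.tail ε))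
    refine ⟨z, ?_, ?_⟩
    · intro ε
      simp only [z]
      split_ifs <;> first | exact hzt _ | exact hzf _
    · rw [sum_cons, sum_cons, Finset.sum_add_distrib]
      have h1 : ∀ ε : Fin N → Bool, h (y (Fin.cons true ε)) +
          ∑ l, sg ((Fin.cons true ε : Fin (N + 1) → Bool) l) * |u l (y (Fin.cons true ε))| =
          (h (y (Fin.cons true ε)) + |u 0 (y (Fin.cons true ε))|) +
            ∑ l : Fin N, sg (ε l) * |u l.succ (y (Fin.cons true ε))| := by
        intro ε; rw [Fin.sum_univ_succ]; simp; ring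
      have h2 : ∀ ε : Fin N → Bool, h (y (Fin.cons false ε)) +
          ∑ l, sg ((Fin.cons false ε : Fin (N + 1) → Bool) l) * |u l (y (Fin.cons false ε))| =
          (h (y (Fin.cons false ε)) - |u 0 (y (Fin.cons false ε))|) +
            ∑ l : Fin N, sg (ε l) * |u l.succ (y (Fin.cons false ε))| := by
        intro ε; rw [Fin.sum_univ_succ]; simp; ring
      rw [Finset.sum_congr rfl (fun ε _ => h1 ε), Finset.sum_congr rfl (fun ε _ => h2 ε)]
      refine le_trans (add_le_add it jf) ?_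
      rw [← Finset.sum_add_distrib]
      apply Finset.sum_le_sum
      intro ε _
      have z1 : z (Fin.cons true ε) = if sw ε then zt ε else zf ε := by
        simp [z, Fin.tail_cons]
      have z2 : z (Fin.cons false ε) = if sw ε then zf ε else zt ε := by
        simp [z, Fin.tail_cons]
      rw [z1, z2, Fin.sum_univ_succ, Fin.sum_univ_succ]
      simp only [Fin.cons_zero, Fin.cons_succ, sg_true, sg_false]
      by_cases hs : sw ε
      · rw [if_pos hs, if_pos hs]
        have hge : u 0 (zt ε) ≥ u 0 (zf ε) := hs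
        have ha := abs_sub_abs_le_abs_sub (u 0 (zt ε)) (u 0 (zf ε))
        rw [abs_of_nonneg (sub_nonneg.2 hge)] at ha
        linarith
      · rw [if_neg hs, if_neg hs]
        have hlt : u 0 (zt ε) < u 0 (zf ε) := not_le.1 hs
        have ha := abs_sub_abs_le_abs_sub (u 0 (zt ε)) (u 0 (zf ε))
        rw [abs_of_neg (sub_neg.2 hlt)] at ha
        linarith

/-- An upper bound for all `|G i|`, `i ∈ J`, with small mean. -/
theorem exists_max {n N : ℕ} (x : Fin N → Fin n → ℝ) (J : Finset (Fin n)) (V : ℝ)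
    (hV : ∀ i ∈ J, ∑ l, x l i ^ 2 ≤ V) (b : ℝ) (hb : 1 ≤ b) (hJb : (J.card : ℝ) ≤ b) :
    ∃ M : (Fin N → Bool) → ℝ, (∀ ε, 0 ≤ M ε) ∧
      (∀ ε, ∀ i ∈ J, |∑ l, sg (ε l) * x l i| ≤ M ε) ∧
      ∑ ε, M ε ≤ 2 ^ N * Real.sqrt (2 * V * Real.log (2 * b)) := by
  rcases J.eq_empty_or_nonempty with rfl | hJ
  · refine ⟨fun _ => 0, fun _ => le_rfl, by simp, ?_⟩
    simp only [Finset.sum_const_zero]
    positivity
  obtain ⟨i₀, hi₀⟩ := hJ
  rcases le_or_gt V 0 with hV0 | hV0
  · refine ⟨fun _ => 0, fun _ => le_rfl, ?_, ?_⟩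
    · intro ε i hi
      have h0 : ∑ l, x l i ^ 2 = 0 :=
        le_antisymm ((hV i hi).trans hV0) (Finset.sum_nonneg fun l _ => sq_nonneg _)
      have h1 : ∀ l, x l i = 0 := by
        intro l
        have := (Finset.sum_eq_zero_iff_of_nonneg (fun l _ => sq_nonneg (x l i))).1 h0 l
          (Finset.mem_univ _)
        exact pow_eq_zero_iff (two_ne_zero) |>.1 this
      simp [h1]
    · simp only [Finset.sum_const_zero]
      positivity
  -- the main case
  set L := Real.log (2 * b) with hL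
  have hLpos : 0 < L := Real.log_pos (by linarith)
  set lam := Real.sqrt (2 * L / V) with hlam
  have hlampos : 0 < lam := Real.sqrt_pos.2 (by positivity)
  have hlamsq : lam ^ 2 = 2 * L / V := Real.sq_sqrt (by positivity)
  set G : (Fin N → Bool) → Fin n → ℝ := fun ε i => ∑ l, sg (ε l) * x l i with hG
  set S : (Fin N → Bool) → ℝ := fun ε =>
    ∑ i ∈ J, (Real.exp (lam * G ε i) + Real.exp (-(lam * G ε i))) with hS
  have key : ∀ ε, ∀ i ∈ J, lam * |G ε i| ≤ 2 * L - 1 + Real.exp (-(2 * L)) * S ε := by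
    intro ε i hi
    have h1 : Real.exp (lam * |G ε i|) ≤ S ε := by
      have h2 : Real.exp (lam * |G ε i|) ≤
          Real.exp (lam * G ε i) + Real.exp (-(lam * G ε i)) := by
        rcases abs_cases (G ε i) with ⟨h, _⟩ | ⟨h, _⟩
        · rw [h]; linarith [Real.exp_pos (-(lam * G ε i))]
        · rw [h, mul_neg]; linarith [Real.exp_pos (lam * G ε i)]
      exact h2.trans (Finset.single_le_sum
        (f := fun i => Real.exp (lam * G ε i) + Real.exp (-(lam * G ε i)))
        (fun i _ => by positivity) hi)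
    have h3 := Real.add_one_le_exp (lam * |G ε i| - 2 * L)
    have h4 : Real.exp (lam * |G ε i| - 2 * L) =
        Real.exp (-(2 * L)) * Real.exp (lam * |G ε i|) := by
      rw [← Real.exp_add]; ring_nf
    have h5 : Real.exp (-(2 * L)) * Real.exp (lam * |G ε i|) ≤ Real.exp (-(2 * L)) * S ε :=
      mul_le_mul_of_nonneg_left h1 (Real.exp_pos _).le
    linarith
  refine ⟨fun ε => (2 * L - 1 + Real.exp (-(2 * L)) * S ε) / lam, ?_, ?_, ?_⟩
  · intro ε
    refine div_nonneg ?_ hlampos.le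
    exact le_trans (by positivity) (key ε i₀ hi₀)
  · intro ε i hi
    rw [le_div_iff₀ hlampos, mul_comm]
    exact key ε i hi
  · have hSsum : ∑ ε, S ε ≤ 2 ^ N * Real.exp (2 * L) := by
      rw [hS, Finset.sum_comm]
      have h1 : ∀ i ∈ J, ∑ ε : Fin N → Bool,
          (Real.exp (lam * G ε i) + Real.exp (-(lam * G ε i))) ≤ 2 * (2 ^ N * Real.exp L) := by
        intro i hi
        have e1 : ∀ ε, lam * G ε i = 0 + ∑ l, sg (ε l) * (lam * x l i) := by
          intro ε; simp only [hG]; rw [Finset.mul_sum, zero_add]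
          exact Finset.sum_congr rfl fun l _ => by ring
        have e2 : ∀ ε, -(lam * G ε i) = 0 + ∑ l, sg (ε l) * (-(lam * x l i)) := by
          intro ε; rw [e1, zero_add, zero_add, ← Finset.sum_neg_distrib]
          exact Finset.sum_congr rfl fun l _ => by ring
        have b0 : (∑ l, (lam * x l i) ^ 2) / 2 ≤ L := by
          have : ∑ l, (lam * x l i) ^ 2 = lam ^ 2 * ∑ l, x l i ^ 2 := by
            rw [Finset.mul_sum]; exact Finset.sum_congr rfl fun l _ => by ring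
          rw [this, hlamsq]
          have h6 : 2 * L / V * ∑ l, x l i ^ 2 ≤ 2 * L / V * V :=
            mul_le_mul_of_nonneg_left (hV i hi) (by positivity)
          rw [div_mul_cancel₀ _ hV0.ne'] at h6
          linarith
        have b1 : ∑ ε : Fin N → Bool, Real.exp (lam * G ε i) ≤ 2 ^ N * Real.exp L := by
          simp_rw [e1]
          refine (sum_exp N 0 _).trans ?_
          gcongr
          rw [zero_add]; exact b0
        have b2 : ∑ ε : Fin N → Bool, Real.exp (-(lam * G ε i)) ≤ 2 ^ N * Real.exp L := by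
          simp_rw [e2]
          refine (sum_exp N 0 _).trans ?_
          gcongr
          simp only [neg_sq]
          rw [zero_add]; exact b0
        rw [Finset.sum_add_distrib]
        linarith
      refine (Finset.sum_le_sum h1).trans ?_
      rw [Finset.sum_const, nsmul_eq_mul]
      have hexp : Real.exp L = 2 * b := Real.exp_log (by linarith)
      have hexp2 : Real.exp (2 * L) = (2 * b) * (2 * b) := by
        rw [two_mul, Real.exp_add, hexp]
      rw [hexp2, hexp]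
      have h2N : (0 : ℝ) < 2 ^ N := by positivity
      calc (J.card : ℝ) * (2 * (2 ^ N * (2 * b))) ≤ b * (2 * (2 ^ N * (2 * b))) := by gcongr
        _ = 2 ^ N * ((2 * b) * (2 * b)) := by ring
    rw [← Finset.sum_div, Finset.sum_add_distrib, ← Finset.mul_sum]
    have hcardε : ∑ _ε : Fin N → Bool, (2 * L - 1) = 2 ^ N * (2 * L - 1) := by
      rw [Finset.sum_const, nsmul_eq_mul, Finset.card_univ, Fintype.card_fun, Fintype.card_bool,
        Fintype.card_fin]
      push_cast; ring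
    rw [hcardε]
    have h7 : Real.exp (-(2 * L)) * ∑ ε, S ε ≤ 2 ^ N := by
      calc _ ≤ Real.exp (-(2 * L)) * (2 ^ N * Real.exp (2 * L)) :=
            mul_le_mul_of_nonneg_left hSsum (Real.exp_pos _).le
        _ = 2 ^ N * (Real.exp (-(2 * L)) * Real.exp (2 * L)) := by ring
        _ = 2 ^ N := by rw [← Real.exp_add]; simp
    have h8 : (2 : ℝ) ^ N * (2 * L - 1) + Real.exp (-(2 * L)) * ∑ ε, S ε ≤ 2 ^ N * (2 * L) := by
      nlinarith
    have h9 : 2 * L / lam = Real.sqrt (2 * V * L) := by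
      rw [eq_comm, Real.sqrt_eq_iff_mul_self_eq (by positivity) (by positivity)]
      rw [div_mul_div_comm, ← sq lam, hlamsq]
      field_simp
    calc _ ≤ (2 ^ N * (2 * L)) / lam := by gcongr
      _ = 2 ^ N * (2 * L / lam) := by ring
      _ = _ := by rw [h9]

/-- The mean of the sum of all `|G i|`. -/
theorem sum_abs_le {n N : ℕ} (x : Fin N → Fin n → ℝ) (C : ℝ)
    (hC : ∑ l, ∑ i, x l i ^ 2 ≤ C) :
    ∑ ε : Fin N → Bool, ∑ i, |∑ l, sg (ε l) * x l i| ≤ 2 ^ N * Real.sqrt (n * C) := by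
  have h2N : (0 : ℝ) < 2 ^ N := by positivity
  have h1 : (∑ ε : Fin N → Bool, ∑ i, |∑ l, sg (ε l) * x l i|) ^ 2 ≤
      (2 ^ N * n) * (2 ^ N * C) := by
    rw [← Fintype.sum_prod_type' (fun (ε : Fin N → Bool) (i : Fin n) =>
      |∑ l, sg (ε l) * x l i|)]
    refine (sq_sum_le_card_mul_sum_sq).trans ?_
    rw [Finset.card_univ, Fintype.card_prod, Fintype.card_fun, Fintype.card_bool,
      Fintype.card_fin, Fintype.card_fin]
    push_cast
    apply mul_le_mul_of_nonneg_left _ (by positivity)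
    simp_rw [sq_abs]
    rw [Fintype.sum_prod_type' (fun (ε : Fin N → Bool) (i : Fin n) =>
      (∑ l, sg (ε l) * x l i) ^ 2), Finset.sum_comm]
    have h2 : ∀ i, ∑ ε : Fin N → Bool, (∑ l, sg (ε l) * x l i) ^ 2 =
        2 ^ N * ∑ l, x l i ^ 2 := by
      intro i
      have := sum_sq N 0 (fun l => x l i)
      simpa using this
    simp_rw [h2]
    rw [← Finset.mul_sum, Finset.sum_comm]
    exact mul_le_mul_of_nonneg_left hC h2N.le
  have h3 : (2 : ℝ) ^ N * Real.sqrt (n * C) = Real.sqrt ((2 ^ N * n) * (2 ^ N * C)) := by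
    rw [show ((2 : ℝ) ^ N * n) * (2 ^ N * C) = (2 ^ N) ^ 2 * (n * C) by ring,
      Real.sqrt_mul (sq_nonneg ((2 : ℝ) ^ N)), Real.sqrt_sq h2N.le]
  rw [h3]
  exact Real.le_sqrt_of_sq_le h1

/-- The linear process over the class. -/
theorem class_bound {n N : ℕ} (x : Fin N → Fin n → ℝ) (J : Finset (Fin n)) (V C ρ Lam : ℝ)
    (hV : ∀ i ∈ J, ∑ l, x l i ^ 2 ≤ V) (hC : ∑ l, ∑ i, x l i ^ 2 ≤ C) (hρ : 0 ≤ ρ)
    (hL : 0 ≤ Lam) (z : (Fin N → Bool) → Fin n → ℝ) (hz1 : ∀ ε, ∀ i ∉ J, |z ε i| ≤ ρ)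
    (hz2 : ∀ ε, ∑ i ∈ J, |z ε i| ≤ Lam) (b : ℝ) (hb : 1 ≤ b) (hJb : (J.card : ℝ) ≤ b) :
    ∑ ε : Fin N → Bool, ∑ l, sg (ε l) * ∑ i, x l i * z ε i ≤
      2 ^ N * (Lam * Real.sqrt (2 * V * Real.log (2 * b)) + ρ * Real.sqrt (n * C)) := by
  obtain ⟨M, hM0, hM, hMs⟩ := exists_max x J V hV b hb hJb
  have h1 : ∀ ε : Fin N → Bool, ∑ l, sg (ε l) * ∑ i, x l i * z ε i ≤
      Lam * M ε + ρ * ∑ i, |∑ l, sg (ε l) * x l i| := by
    intro ε
    have e1 : ∑ l, sg (ε l) * ∑ i, x l i * z ε i =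
        ∑ i, z ε i * ∑ l, sg (ε l) * x l i := by
      simp_rw [Finset.mul_sum]
      rw [Finset.sum_comm]
      exact Finset.sum_congr rfl fun i _ => Finset.sum_congr rfl fun l _ => by ring
    rw [e1, ← Finset.sum_add_sum_compl J]
    apply add_le_add
    · calc ∑ i ∈ J, z ε i * ∑ l, sg (ε l) * x l i ≤ ∑ i ∈ J, |z ε i| * M ε := by
            apply Finset.sum_le_sum
            intro i hi
            calc z ε i * ∑ l, sg (ε l) * x l i ≤ |z ε i * ∑ l, sg (ε l) * x l i| := le_abs_self _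
              _ = |z ε i| * |∑ l, sg (ε l) * x l i| := abs_mul _ _
              _ ≤ |z ε i| * M ε := mul_le_mul_of_nonneg_left (hM ε i hi) (abs_nonneg _)
        _ = (∑ i ∈ J, |z ε i|) * M ε := by rw [Finset.sum_mul]
        _ ≤ Lam * M ε := mul_le_mul_of_nonneg_right (hz2 ε) (hM0 ε)
    · calc ∑ i ∈ Jᶜ, z ε i * ∑ l, sg (ε l) * x l i
          ≤ ∑ i ∈ Jᶜ, ρ * |∑ l, sg (ε l) * x l i| := by
            apply Finset.sum_le_sum
            intro i hi
            calc z ε i * ∑ l, sg (ε l) * x l i ≤ |z ε i * ∑ l, sg (ε l) * x l i| := le_abs_self _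
              _ = |z ε i| * |∑ l, sg (ε l) * x l i| := abs_mul _ _
              _ ≤ ρ * |∑ l, sg (ε l) * x l i| :=
                mul_le_mul_of_nonneg_right (hz1 ε i (Finset.mem_compl.1 hi)) (abs_nonneg _)
        _ ≤ ∑ i, ρ * |∑ l, sg (ε l) * x l i| :=
            Finset.sum_le_sum_of_subset_of_nonneg (Finset.subset_univ _)
              (fun i _ _ => mul_nonneg hρ (abs_nonneg _))
        _ = ρ * ∑ i, |∑ l, sg (ε l) * x l i| := by rw [Finset.mul_sum]
  calc _ ≤ ∑ ε : Fin N → Bool, (Lam * M ε + ρ * ∑ i, |∑ l, sg (ε l) * x l i|) :=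
        Finset.sum_le_sum fun ε _ => h1 ε
    _ = Lam * ∑ ε, M ε + ρ * ∑ ε : Fin N → Bool, ∑ i, |∑ l, sg (ε l) * x l i| := by
        rw [Finset.sum_add_distrib, ← Finset.mul_sum, ← Finset.mul_sum]
    _ ≤ Lam * (2 ^ N * Real.sqrt (2 * V * Real.log (2 * b))) +
          ρ * (2 ^ N * Real.sqrt (n * C)) := by
        gcongr
        exact sum_abs_le x C hC
    _ = _ := by ring

/-- **Halving lemma.** Out of every pair `(x l, x' l)` one vector can be chosen such that the
`ℓ₁` sums stay at least one half, up to a small error, uniformly over all vectors `Y` with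
`|Y i| ≤ ρ` outside `J` and `∑ i ∈ J, |Y i| ≤ Lam`. -/
theorem halving_card {n N : ℕ} (x x' : Fin N → Fin n → ℝ) (J : Finset (Fin n)) (V C : ℝ)
    (hV : ∀ i ∈ J, ∑ l, (x l i ^ 2 + x' l i ^ 2) ≤ V)
    (hC : ∑ l, ∑ i, (x l i ^ 2 + x' l i ^ 2) ≤ C) (ρ Lam : ℝ) (hρ : 0 ≤ ρ) (hL : 0 ≤ Lam)
    (b : ℝ) (hb : 1 ≤ b) (hJb : (J.card : ℝ) ≤ b) :
    ∃ c : Fin N → Bool, ∀ Y : Fin n → ℝ, (∀ i, i ∉ J → |Y i| ≤ ρ) → ∑ i ∈ J, |Y i| ≤ Lam →
      (1 / 2) * ∑ l, (|∑ i, x l i * Y i| + |∑ i, x' l i * Y i|) -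
          (Lam * Real.sqrt (2 * V * Real.log (2 * b)) + ρ * Real.sqrt (n * C)) ≤
        ∑ l, |∑ i, (if c l then x l else x' l) i * Y i| := by
  by_contra hcon
  push Not at hcon
  choose y hy1 hy2 hy3 using hcon
  set E := Lam * Real.sqrt (2 * V * Real.log (2 * b)) + ρ * Real.sqrt (n * C) with hE
  set S : Set (Fin n → ℝ) := {Y | (∀ i, i ∉ J → |Y i| ≤ ρ) ∧ ∑ i ∈ J, |Y i| ≤ Lam} with hS
  have h2N : (0 : ℝ) < 2 ^ N := by positivity
  -- the choice in terms of signs
  have hch : ∀ (c : Fin N → Bool) (Y : Fin n → ℝ),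
      ∑ l, |∑ i, (if c l then x l else x' l) i * Y i| =
        (1 / 2) * ∑ l, (|∑ i, x l i * Y i| + |∑ i, x' l i * Y i|) +
        (1 / 2) * (∑ l, sg (c l) * |∑ i, x l i * Y i| -
          ∑ l, sg (c l) * |∑ i, x' l i * Y i|) := by
    intro c Y
    rw [← Finset.sum_sub_distrib, ← mul_add, ← Finset.sum_add_distrib, Finset.mul_sum]
    apply Finset.sum_congr rfl
    intro l _
    cases hc : c l
    · simp; ring
    · simp; ring
  have hlt : ∀ c : Fin N → Bool, 2 * E < ∑ l, sg (c l) * |∑ i, x' l i * y c i| +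
      ∑ l, sg (!c l) * |∑ i, x l i * y c i| := by
    intro c
    have h1 := hy3 c
    rw [hch] at h1
    simp_rw [sg_not, neg_mul]
    rw [Finset.sum_neg_distrib]
    linarith
  have hsum : 2 ^ N * (2 * E) < ∑ c : Fin N → Bool, ∑ l, sg (c l) * |∑ i, x' l i * y c i| +
      ∑ c : Fin N → Bool, ∑ l, sg (!c l) * |∑ i, x l i * y c i| := by
    rw [← Finset.sum_add_distrib]
    calc (2 : ℝ) ^ N * (2 * E) = ∑ _c : Fin N → Bool, 2 * E := by
          rw [Finset.sum_const, nsmul_eq_mul, Finset.card_univ, Fintype.card_fun,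
            Fintype.card_bool, Fintype.card_fin]
          push_cast; ring
      _ < _ := Finset.sum_lt_sum_of_nonempty Finset.univ_nonempty fun c _ => hlt c
  -- the bound for each half
  have hbd : ∀ (w : Fin N → Fin n → ℝ) (D : ℝ), (∀ i ∈ J, ∑ l, w l i ^ 2 ≤ V) →
      (∑ l, ∑ i, w l i ^ 2 ≤ D) → ∀ v : (Fin N → Bool) → Fin n → ℝ, (∀ ε, v ε ∈ S) →
      ∑ c : Fin N → Bool, ∑ l, sg (c l) * |∑ i, w l i * v c i| ≤
        2 ^ N * (Lam * Real.sqrt (2 * V * Real.log (2 * b)) + ρ * Real.sqrt (n * D)) := by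
    intro w D hw1 hw2 v hv
    obtain ⟨z, hz, hle⟩ := contraction S N (fun _ => 0) (fun l Y => ∑ i, w l i * Y i) v hv
    simp only [zero_add] at hle
    refine hle.trans ?_
    exact class_bound w J V D ρ Lam hw1 hw2 hρ hL z (fun ε => (hz ε).1) (fun ε => (hz ε).2)
      b hb hJb
  have hV1 : ∀ i ∈ J, ∑ l, x l i ^ 2 ≤ V := fun i hi => le_trans
    (Finset.sum_le_sum fun l _ => by nlinarith [sq_nonneg (x' l i)]) (hV i hi)
  have hV2 : ∀ i ∈ J, ∑ l, x' l i ^ 2 ≤ V := fun i hi => le_trans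
    (Finset.sum_le_sum fun l _ => by nlinarith [sq_nonneg (x l i)]) (hV i hi)
  set C1 := ∑ l, ∑ i, x l i ^ 2 with hC1
  set C2 := ∑ l, ∑ i, x' l i ^ 2 with hC2
  have hC12 : C1 + C2 ≤ C := by
    refine le_trans (le_of_eq ?_) hC
    rw [hC1, hC2, ← Finset.sum_add_distrib]
    exact Finset.sum_congr rfl fun l _ => by rw [← Finset.sum_add_distrib]
  have hC1n : 0 ≤ C1 := Finset.sum_nonneg fun l _ => Finset.sum_nonneg fun i _ => sq_nonneg _
  have hC2n : 0 ≤ C2 := Finset.sum_nonneg fun l _ => Finset.sum_nonneg fun i _ => sq_nonneg _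
  have b1 := hbd x' C2 hV2 le_rfl y (fun c => ⟨hy1 c, hy2 c⟩)
  have b2 : ∑ c : Fin N → Bool, ∑ l, sg (!c l) * |∑ i, x l i * y c i| ≤
      2 ^ N * (Lam * Real.sqrt (2 * V * Real.log (2 * b)) + ρ * Real.sqrt (n * C1)) := by
    have hb := hbd x C1 hV1 le_rfl (fun c => y (fun l => !c l)) (fun c => ⟨hy1 _, hy2 _⟩)
    refine le_trans (le_of_eq ?_) hb
    let e : (Fin N → Bool) ≃ (Fin N → Bool) :=
      ⟨fun c l => !c l, fun c l => !c l, fun c => by funext l; simp, fun c => by funext l; simp⟩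
    rw [← e.sum_comp]
    apply Finset.sum_congr rfl
    intro c _
    simp [e]
  have hsq : Real.sqrt (n * C1) + Real.sqrt (n * C2) ≤ 2 * Real.sqrt (n * C) := by
    have hn0 : (0 : ℝ) ≤ n := Nat.cast_nonneg n
    have h1 : Real.sqrt (n * C1) ≤ Real.sqrt (n * C) := by
      apply Real.sqrt_le_sqrt
      nlinarith
    have h2 : Real.sqrt (n * C2) ≤ Real.sqrt (n * C) := by
      apply Real.sqrt_le_sqrt
      nlinarith
    linarith
  have hfin : 2 ^ N * (2 * E) < 2 ^ N * (2 * E) := by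
    refine lt_of_lt_of_le hsum ?_
    refine le_trans (add_le_add b1 b2) ?_
    rw [← mul_add]
    apply mul_le_mul_of_nonneg_left _ h2N.le
    rw [hE]
    have := mul_le_mul_of_nonneg_left hsq hρ
    nlinarith
  exact lt_irrefl _ hfin

/-- The halving lemma with `log (2 n)`. -/
theorem halving {n N : ℕ} (x x' : Fin N → Fin n → ℝ) (J : Finset (Fin n)) (V C : ℝ)
    (hV : ∀ i ∈ J, ∑ l, (x l i ^ 2 + x' l i ^ 2) ≤ V)
    (hC : ∑ l, ∑ i, (x l i ^ 2 + x' l i ^ 2) ≤ C) (ρ Lam : ℝ) (hρ : 0 ≤ ρ) (hL : 0 ≤ Lam) :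
    ∃ c : Fin N → Bool, ∀ Y : Fin n → ℝ, (∀ i, i ∉ J → |Y i| ≤ ρ) → ∑ i ∈ J, |Y i| ≤ Lam →
      (1 / 2) * ∑ l, (|∑ i, x l i * Y i| + |∑ i, x' l i * Y i|) -
          (Lam * Real.sqrt (2 * V * Real.log (2 * n)) + ρ * Real.sqrt (2 * n * C)) ≤
        ∑ l, |∑ i, (if c l then x l else x' l) i * Y i| := by
  have hC0 : 0 ≤ C := le_trans (Finset.sum_nonneg fun l _ => Finset.sum_nonneg fun i _ =>
    add_nonneg (sq_nonneg _) (sq_nonneg _)) hC
  rcases Nat.eq_zero_or_pos n with hn | hn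
  · subst hn
    refine ⟨fun _ => true, fun Y _ _ => ?_⟩
    simp only [Finset.univ_eq_empty, Finset.sum_empty, abs_zero, add_zero,
      Finset.sum_const_zero, mul_zero, zero_sub]
    have : 0 ≤ Lam * Real.sqrt (2 * V * Real.log (2 * ((0 : ℕ) : ℝ))) +
        ρ * Real.sqrt (2 * ((0 : ℕ) : ℝ) * C) := by positivity
    linarith
  · have hcard : (J.card : ℝ) ≤ n := by
      have := Finset.card_le_univ J
      rw [Fintype.card_fin] at this
      exact_mod_cast this
    obtain ⟨c, hc⟩ := halving_card x x' J V C hV hC ρ Lam hρ hL n (by exact_mod_cast hn) hcard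
    refine ⟨c, fun Y h1 h2 => le_trans ?_ (hc Y h1 h2)⟩
    have hn0 : (0 : ℝ) ≤ n := Nat.cast_nonneg n
    have : Real.sqrt (n * C) ≤ Real.sqrt (2 * n * C) := by
      apply Real.sqrt_le_sqrt
      nlinarith [mul_nonneg hn0 hC0]
    have := mul_le_mul_of_nonneg_left this hρ
    linarith

end Pool.Agent.Helper15.QH
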